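import Pool.Agent.H308R2.ZS.Stubs

set_option autoImplicit false
open scoped ComplexConjugate Kronecker Matrix.Norms.L2Operator

namespace Pool.Agent.H308R2.ZS.T_CDF

open Pool.Agent.H923R2.FP Pool.Agent.H923R2.FZ Pool.Agent.H308R2.ZS
open MeasureTheory Set Filter Topology

theorem t_CDF : S_CDF := by
  intro μ hμ hat
  haveI := hμ
  set F : ℝ → ℝ := fun x => ProbabilityTheory.cdf μ x with hF
  have hmono : Monotone F := ProbabilityTheory.monotone_cdf μ
  have hreal : ∀ x, F x = μ.real (Iic x) := fun x => ProbabilityTheory.cdf_eq_real μ x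
  have hcont : Continuous F := by
    rw [continuous_iff_continuousAt]
    intro x
    rw [hmono.continuousAt_iff_leftLim_eq_rightLim]
    have h1 := StieltjesFunction.measure_singleton (ProbabilityTheory.cdf μ) x
    rw [ProbabilityTheory.measure_cdf μ, hat x] at h1
    have h2 : F x - Function.leftLim F x ≤ 0 := ENNReal.ofReal_eq_zero.1 h1.symm
    have h3 : Function.leftLim F x ≤ F x := hmono.leftLim_le le_rfl
    have h4 : Function.rightLim F x = F x := (ProbabilityTheory.cdf μ).rightLim_eq x
    rw [h4]
    linarith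
  have hbot : Tendsto F atBot (𝓝 0) := ProbabilityTheory.tendsto_cdf_atBot μ
  have htop : Tendsto F atTop (𝓝 1) := ProbabilityTheory.tendsto_cdf_atTop μ
  have hivt : ∀ b : ℝ, 0 < b → b < 1 → ∃ s, F s = b := by
    intro b hb0 hb1
    have h1 : ∃ a, F a ≤ b := by
      obtain ⟨a, ha⟩ := (hbot.eventually (gt_mem_nhds hb0)).exists
      exact ⟨a, ha.le⟩
    have h2 : ∃ a, b ≤ F a := by
      obtain ⟨a, ha⟩ := (htop.eventually (lt_mem_nhds hb1)).exists
      exact ⟨a, ha.le⟩
    exact mem_range_of_exists_le_of_exists_ge hcont h1 h2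
  let G : C(ℝ, unitInterval) :=
    ⟨fun x => ⟨F x, ProbabilityTheory.cdf_nonneg μ x, ProbabilityTheory.cdf_le_one μ x⟩,
      hcont.subtype_mk _⟩
  refine ⟨G, ?_⟩
  haveI : IsProbabilityMeasure (μ.map G) :=
    Measure.isProbabilityMeasure_map G.continuous.measurable.aemeasurable
  apply Measure.ext_of_Iic
  intro a
  rw [Measure.map_apply G.continuous.measurable measurableSet_Iic, unitInterval.volume_Iic]
  have hset : G ⁻¹' (Iic a) = {x | F x ≤ (a : ℝ)} := rfl
  rw [hset]
  have ha0 : (0 : ℝ) ≤ a := a.2.1
  have ha1 : (a : ℝ) ≤ 1 := a.2.2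
  have key : μ.real {x | F x ≤ (a : ℝ)} = a := by
    rcases eq_or_lt_of_le ha1 with h1 | h1
    · have : {x | F x ≤ (a : ℝ)} = univ := by
        apply eq_univ_of_forall
        intro x
        show F x ≤ (a : ℝ)
        rw [h1]
        exact ProbabilityTheory.cdf_le_one μ x
      rw [this, h1]
      simp
    · apply le_antisymm
      · by_contra hcon
        push_neg at hcon
        set m := μ.real {x | F x ≤ (a : ℝ)} with hm
        have hm1 : m ≤ 1 := by
          rw [hm]
          exact measureReal_le_one
        obtain ⟨s, hs⟩ := hivt ((a + m) / 2) (by linarith) (by linarith)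
        have hsub : {x | F x ≤ (a : ℝ)} ⊆ Iic s := by
          intro x hx
          by_contra hxs
          have hx' : F x ≤ (a : ℝ) := hx
          have h5 : s ≤ x := le_of_lt (not_le.1 hxs)
          have h6 := hmono h5
          rw [hs] at h6
          linarith
        have h7 : m ≤ μ.real (Iic s) := by
          rw [hm]
          exact measureReal_mono hsub
        rw [← hreal, hs] at h7
        linarith
      · rcases eq_or_lt_of_le ha0 with h0 | h0
        · rw [← h0]
          exact measureReal_nonneg
        · obtain ⟨s, hs⟩ := hivt a h0 h1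
          have hsub : Iic s ⊆ {x | F x ≤ (a : ℝ)} := by
            intro x hx
            show F x ≤ (a : ℝ)
            rw [← hs]
            exact hmono hx
          calc (a : ℝ) = μ.real (Iic s) := by rw [← hreal, hs]
            _ ≤ _ := measureReal_mono hsub
  have h9 : ENNReal.ofReal (μ.real {x | F x ≤ (a : ℝ)}) = μ {x | F x ≤ (a : ℝ)} := ofReal_measureReal
  rw [← h9, key]

end Pool.Agent.H308R2.ZS.T_CDF
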