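import Pool.Agent.H308R2.ZS.Stubs

set_option autoImplicit false

open scoped ComplexConjugate Kronecker Matrix.Norms.L2Operator CompactlySupported
open MeasureTheory

namespace Pool.Agent.H308R2.ZS.T_TRM

open Pool.Agent.H923R2.FP Pool.Agent.H923R2.FZ Pool.Agent.H308R2.ZS

noncomputable section

/-- scalar functions in the dimension drop algebra -/
def sc (n : ℕ) (f : C(unitInterval, ℂ)) : dimDrop n :=
  ⟨⟨fun t => f t • (1 : MM n), by fun_prop⟩,
    ⟨f 0 • 1, by rw [lft_smul, lft_one]; rfl⟩, ⟨f 1 • 1, by rw [rgt_smul, rgt_one]; rfl⟩⟩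

lemma sc_coe (n : ℕ) (f : C(unitInterval, ℂ)) (t : unitInterval) :
    ((sc n f : C(unitInterval, MM n)) t) = f t • (1 : MM n) := rfl

lemma sc_add (n : ℕ) (f g : C(unitInterval, ℂ)) : sc n (f + g) = sc n f + sc n g := by
  apply Subtype.ext
  ext1 t
  exact add_smul (f t) (g t) (1 : MM n)

lemma sc_smul (n : ℕ) (c : ℂ) (f : C(unitInterval, ℂ)) : sc n (c • f) = c • sc n f := by
  apply Subtype.ext
  ext1 t
  exact smul_assoc c (f t) (1 : MM n)

lemma sc_one (n : ℕ) : sc n 1 = 1 := by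
  apply Subtype.ext
  ext1 t
  exact one_smul ℂ (1 : MM n)

lemma sc_star_mul (n : ℕ) (f : C(unitInterval, ℂ)) : star (sc n f) * sc n f = sc n (star f * f) := by
  apply Subtype.ext
  ext1 t
  change star (f t • (1 : MM n)) * (f t • (1 : MM n)) = (star (f t) * f t) • (1 : MM n)
  rw [star_smul, star_one, smul_mul_smul_comm, one_mul]

lemma ntr_smul_one (n : ℕ) (c : ℂ) : ntr (c • (1 : MM n)) = c := by
  have h : (Fintype.card (Ix n) : ℂ) ≠ 0 := Nat.cast_ne_zero.2 Fintype.card_ne_zero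
  unfold ntr
  rw [Finset.sum_congr rfl (fun p _ => by
    rw [Matrix.smul_apply, Matrix.one_apply_eq, smul_eq_mul, mul_one]), Finset.sum_const,
    Finset.card_univ, nsmul_eq_mul, mul_div_assoc, mul_div_cancel₀ _ h]

lemma ntr_sub (n : ℕ) (A B : MM n) : ntr (A - B) = ntr A - ntr B := by
  unfold ntr
  rw [← sub_div, ← Finset.sum_sub_distrib]
  rfl

lemma ntr_cont (n : ℕ) : Continuous (fun M : MM n => ntr M) := by
  unfold ntr
  have : ∀ p : Ix n, Continuous (fun M : MM n => M p p) := fun p => by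
    fun_prop
  fun_prop

/-- the trace function -/
def tf (n : ℕ) (F : dimDrop n) : C(unitInterval, ℂ) :=
  ⟨fun t => ntr ((F : C(unitInterval, MM n)) t),
    (ntr_cont n).comp (F : C(unitInterval, MM n)).continuous⟩

/-- real to complex -/
def rc (f : C(unitInterval, ℝ)) : C(unitInterval, ℂ) := ⟨fun t => (f t : ℂ), by fun_prop⟩

lemma rc_add (f g : C(unitInterval, ℝ)) : rc (f + g) = rc f + rc g := by
  ext t
  exact Complex.ofReal_add _ _

lemma rc_smul (c : ℝ) (f : C(unitInterval, ℝ)) : rc (c • f) = (c : ℂ) • rc f := by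
  ext t
  exact Complex.ofReal_mul _ _

section

variable {n : ℕ} {B : Type} [CStarAlgebra B] {τ : B →ₗ[ℂ] ℂ}

/-- the functional on real functions -/
def lam (τ : B →ₗ[ℂ] ℂ) (d : dimDrop n →⋆ₐ[ℂ] B) : C(unitInterval, ℝ) →ₗ[ℝ] ℝ where
  toFun f := (τ (d (sc n (rc f)))).re
  map_add' f g := by rw [rc_add, sc_add, map_add, map_add, Complex.add_re]
  map_smul' c f := by
    rw [rc_smul, sc_smul, map_smul, map_smul, smul_eq_mul, Complex.re_ofReal_mul]
    rfl

lemma pos_aux (hτ : TS τ) (d : dimDrop n →⋆ₐ[ℂ] B) (f : C(unitInterval, ℝ)) (hf : ∀ t, 0 ≤ f t) :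
    0 ≤ (τ (d (sc n (rc f)))).re ∧ (τ (d (sc n (rc f)))).im = 0 := by
  let g : C(unitInterval, ℝ) := ⟨fun t => Real.sqrt (f t), by fun_prop⟩
  have h : rc f = star (rc g) * rc g := by
    ext t
    change (f t : ℂ) = conj ((Real.sqrt (f t) : ℝ) : ℂ) * ((Real.sqrt (f t) : ℝ) : ℂ)
    rw [Complex.conj_ofReal, ← Complex.ofReal_mul, Real.mul_self_sqrt (hf t)]
  rw [h, ← sc_star_mul, map_mul, map_star]
  exact hτ.pos _

lemma im_aux (hτ : TS τ) (d : dimDrop n →⋆ₐ[ℂ] B) (f : C(unitInterval, ℝ)) :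
    (τ (d (sc n (rc f)))).im = 0 := by
  let g : C(unitInterval, ℝ) := ⟨fun t => |f t|, by fun_prop⟩
  let k : C(unitInterval, ℝ) := ⟨fun t => f t + |f t|, by fun_prop⟩
  have h1 := (pos_aux hτ d g (fun t => abs_nonneg _)).2
  have h2 := (pos_aux hτ d k (fun t => by
    have := neg_abs_le (f t)
    change 0 ≤ f t + |f t|
    linarith)).2
  have h3 : k = f + g := rfl
  rw [h3, rc_add, sc_add, map_add, map_add, Complex.add_im, h1, add_zero] at h2
  exact h2

theorem exists_meas (hτ : TS τ) (d : dimDrop n →⋆ₐ[ℂ] B) :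
    ∃ μ : Measure unitInterval, IsProbabilityMeasure μ ∧
      ∀ f : C(unitInterval, ℝ), τ (d (sc n (rc f))) = ((∫ t, f t ∂μ : ℝ) : ℂ) := by
  let L : C_c(unitInterval, ℝ) →ₗ[ℝ] ℝ :=
    { toFun := fun f => lam τ d f.toContinuousMap
      map_add' := fun f g => (lam τ d).map_add f.toContinuousMap g.toContinuousMap
      map_smul' := fun c f => (lam τ d).map_smul c f.toContinuousMap }
  let Λ : C_c(unitInterval, ℝ) →ₚ[ℝ] ℝ := PositiveLinearMap.mk₀ L (fun f hf =>
    (pos_aux hτ d f.toContinuousMap (fun t => hf t)).1)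
  have hΛ : ∀ f : C(unitInterval, ℝ),
      ∫ t, f t ∂(RealRMK.rieszMeasure Λ) = (τ (d (sc n (rc f)))).re := by
    intro f
    have := RealRMK.integral_rieszMeasure Λ
      ({ toFun := f
         hasCompactSupport' := HasCompactSupport.of_compactSpace _ } : C_c(unitInterval, ℝ))
    exact this
  refine ⟨RealRMK.rieszMeasure Λ, ?_, ?_⟩
  · have h1 := hΛ 1
    have h2 : rc 1 = 1 := by
      ext t
      exact Complex.ofReal_one
    rw [h2, sc_one, map_one, hτ.one, Complex.one_re] at h1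
    simp only [ContinuousMap.one_apply, integral_const, smul_eq_mul, mul_one] at h1
    constructor
    rw [measureReal_def] at h1
    rw [← ENNReal.toReal_eq_one_iff]
    exact h1
  · intro f
    rw [hΛ f]
    exact Complex.ext (by simp) (by simpa using im_aux hτ d f)

end

theorem t_TRM (hTR0 : S_TR0) : S_TRM := by
  intro n B _ τ hτ d
  obtain ⟨μ, hμ, h⟩ := exists_meas hτ d
  refine ⟨μ, hμ, fun F => ?_⟩
  have h0 : τ (d F) = τ (d (sc n (tf n F))) := by
    have := hTR0 n B τ hτ d (F - sc n (tf n F)) (fun t => by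
      have e : ((F - sc n (tf n F) : dimDrop n) : C(unitInterval, MM n)) t =
          (F : C(unitInterval, MM n)) t - (tf n F t) • (1 : MM n) := rfl
      rw [e, ntr_sub, ntr_smul_one]
      exact sub_self _)
    have e3 : F = (F - sc n (tf n F)) + sc n (tf n F) := Subtype.ext
      (sub_add_cancel (F : C(unitInterval, MM n)) (sc n (tf n F) : C(unitInterval, MM n))).symm
    calc τ (d F) = τ (d ((F - sc n (tf n F)) + sc n (tf n F))) := by rw [← e3]
      _ = τ (d (F - sc n (tf n F))) + τ (d (sc n (tf n F))) := by rw [map_add, map_add]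
      _ = τ (d (sc n (tf n F))) := by rw [this, zero_add]
  let f1 : C(unitInterval, ℝ) := ⟨fun t => (tf n F t).re, by fun_prop⟩
  let f2 : C(unitInterval, ℝ) := ⟨fun t => (tf n F t).im, by fun_prop⟩
  have h1 : tf n F = rc f1 + Complex.I • rc f2 := by
    ext t
    change tf n F t = ((tf n F t).re : ℂ) + Complex.I * ((tf n F t).im : ℂ)
    rw [mul_comm]
    exact (Complex.re_add_im _).symm
  have hint : Integrable (fun t => tf n F t) μ := by
    have := (tf n F).continuous
    exact this.integrable_of_hasCompactSupport (HasCompactSupport.of_compactSpace _)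
  have h2 : (∫ t, ntr ((F : C(unitInterval, MM n)) t) ∂μ) = ∫ t, tf n F t ∂μ := rfl
  rw [h0, h2, ← integral_re_add_im hint]
  conv_lhs => rw [h1, sc_add, sc_smul, map_add, map_add, map_smul, map_smul, h f1, h f2,
    smul_eq_mul, mul_comm Complex.I]
  rfl

end

end Pool.Agent.H308R2.ZS.T_TRM
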