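import Pool.Agent.H308R2.ZS.Stubs

set_option autoImplicit false
open scoped ComplexConjugate Kronecker Matrix.Norms.L2Operator

namespace Pool.Agent.H308R2.ZS.T_TRMAT

open Pool.Agent.H923R2.FP Pool.Agent.H923R2.FZ Pool.Agent.H308R2.ZS

theorem t_TRMAT : S_TRMAT := by
  intro ι _ _ _ L hL x
  obtain ⟨i0⟩ : Nonempty ι := inferInstance
  have h1 : ∀ i j : ι, i ≠ j → L (Matrix.single i j 1) = 0 := by
    intro i j hij
    have h := hL (Matrix.single i i 1) (Matrix.single i j 1)
    rw [Matrix.single_mul_single_same, Matrix.single_mul_single_of_ne (h := hij.symm)] at h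
    simpa using h
  have h2 : ∀ i : ι, L (Matrix.single i i 1) = L (Matrix.single i0 i0 1) := by
    intro i
    have h := hL (Matrix.single i i0 1) (Matrix.single i0 i 1)
    rw [Matrix.single_mul_single_same, Matrix.single_mul_single_same] at h
    simpa using h
  have h3 : ∀ y : Matrix ι ι ℂ, L y = (∑ i, y i i) * L (Matrix.single i0 i0 1) := by
    intro y
    conv_lhs => rw [Matrix.matrix_eq_sum_single y]
    rw [map_sum, Finset.sum_mul]
    apply Finset.sum_congr rfl
    intro i _
    rw [map_sum, Finset.sum_eq_single i]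
    · have : Matrix.single i i (y i i) = y i i • Matrix.single i i (1 : ℂ) := by
        rw [Matrix.smul_single, smul_eq_mul, mul_one]
      rw [this, map_smul, h2, smul_eq_mul]
    · intro j _ hj
      have : Matrix.single i j (y i j) = y i j • Matrix.single i j (1 : ℂ) := by
        rw [Matrix.smul_single, smul_eq_mul, mul_one]
      rw [this, map_smul, h1 i j hj.symm, smul_zero]
    · intro h
      exact absurd (Finset.mem_univ i) h
  have hc : (Fintype.card ι : ℂ) ≠ 0 := by
    exact_mod_cast Fintype.card_ne_zero
  rw [h3 x, h3 1]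
  simp only [ntr, Matrix.trace, Matrix.diag_apply, Matrix.one_apply_eq, Finset.sum_const, Finset.card_univ,
    nsmul_eq_mul, mul_one]
  field_simp

end Pool.Agent.H308R2.ZS.T_TRMAT
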