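import Pool.Agent.Helper185.Man4

/-!
# A quasi-developable manifold with a `G_δ`-diagonal which is not developable

The descending system of a maximal almost disjoint family of rapidly convergent sequences of the
Cantor set.
-/

namespace Pool.Agent.H571R2.QDMan

open Set Topology Relation
open Pool.Agent.Helper185.Man

/-- The Cantor set. -/
abbrev Ca : Type := ℕ → Bool

/-- Rapidly convergent injective sequences. -/
def Rapid (s : ℕ → Ca) : Prop :=
  Function.Injective s ∧ ∀ k l j, j < k → j < l → s k j = s l j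

/-- A maximal almost disjoint family of rapid sequences. -/
def IsMad (L : Set (ℕ → Ca)) : Prop :=
  (∀ s ∈ L, Rapid s) ∧ (∀ s ∈ L, ∀ t ∈ L, s ≠ t → (range s ∩ range t).Finite) ∧
    ∀ s, Rapid s → ∃ t ∈ L, (range s ∩ range t).Infinite

theorem exists_mad : ∃ L, IsMad L := by
  classical
  let F : Set (Set (ℕ → Ca)) :=
    {L | (∀ s ∈ L, Rapid s) ∧ ∀ s ∈ L, ∀ t ∈ L, s ≠ t → (range s ∩ range t).Finite}
  obtain ⟨L, hL⟩ := zorn_subset F (by
    intro c hc hch
    refine ⟨⋃₀ c, ⟨?_, ?_⟩, fun s hs => subset_sUnion_of_mem hs⟩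
    · rintro s ⟨L, hL, hs⟩
      exact (hc hL).1 s hs
    · rintro s ⟨L, hL, hs⟩ t ⟨K, hK, ht⟩ hne
      rcases hch.total hL hK with h | h
      · exact (hc hK).2 s (h hs) t ht hne
      · exact (hc hL).2 s hs t (h ht) hne)
  refine ⟨L, hL.1.1, hL.1.2, fun s hs => ?_⟩
  by_contra hcon
  push Not at hcon
  have h1 : insert s L ∈ F := by
    refine ⟨?_, ?_⟩
    · rintro t (rfl | ht)
      · exact hs
      · exact hL.1.1 t ht
    · rintro t (rfl | ht) u (rfl | hu) hne
      · exact absurd rfl hne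
      · exact hcon u hu
      · rw [inter_comm]; exact hcon t ht
      · exact hL.1.2 t ht u hu hne
  have h2 : s ∈ L := hL.2 h1 (subset_insert s L) (mem_insert s L)
  have h3 := hcon s h2
  rw [inter_self] at h3
  exact Set.infinite_range_of_injective hs.1 h3

/-- Every infinite subset of the Cantor set contains a rapid sequence. -/
theorem exists_rapid {J : Set Ca} (hJ : J.Infinite) : ∃ s, Rapid s ∧ range s ⊆ J := by
  classical
  obtain ⟨c, -, hc⟩ := hJ.exists_accPt_of_subset_isCompact isCompact_univ (subset_univ J)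
  have hinf : ∀ k : ℕ, (J ∩ {a | ∀ j < k, a j = c j}).Infinite := by
    intro k
    have ho : {a : Ca | ∀ j < k, a j = c j} ∈ 𝓝 c := by
      have : {a : Ca | ∀ j < k, a j = c j} = ⋂ j ∈ Finset.range k, (fun a : Ca => a j) ⁻¹' {c j} := by
        ext a; simp
      rw [this]
      refine (Filter.biInter_finset_mem _).2 (fun j _ => ?_)
      exact (continuous_apply j).continuousAt.preimage_mem_nhds (by simp)
    have h2 := hc.nhds_inter ho
    rw [inter_comm]
    exact Set.Infinite.of_accPt h2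
  choose pick hpick using fun (k : ℕ) (F : Finset Ca) => (hinf k).exists_notMem_finset F
  let F : ℕ → Finset Ca := fun n => Nat.rec (motive := fun _ => Finset Ca) ∅
    (fun k G => insert (pick k G) G) n
  have hF : ∀ n, F (n + 1) = insert (pick n (F n)) (F n) := fun n => rfl
  have hFm : ∀ m n, m ≤ n → F m ⊆ F n := by
    intro m n hmn
    induction n, hmn using Nat.le_induction with
    | base => exact Finset.Subset.refl _
    | succ n _ ih => rw [hF]; exact ih.trans (Finset.subset_insert _ _)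
  have hlt : ∀ m n, m < n → pick m (F m) ≠ pick n (F n) := by
    intro m n hmn heq
    have h1 : pick m (F m) ∈ F (m + 1) := by rw [hF]; exact Finset.mem_insert_self _ _
    have h2 := hFm _ _ (Nat.succ_le_of_lt hmn) h1
    rw [heq] at h2
    exact (hpick n (F n)).2 h2
  refine ⟨fun n => pick n (F n), ⟨?_, ?_⟩, ?_⟩
  · intro m n h
    by_contra hne
    rcases lt_or_gt_of_ne hne with h' | h'
    · exact hlt m n h' h
    · exact hlt n m h' h.symm
  · intro k l j hk hl
    show pick k (F k) j = pick l (F l) j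
    rw [(hpick k (F k)).1.2 j hk, (hpick l (F l)).1.2 j hl]
  · rintro _ ⟨n, rfl⟩
    exact (hpick n (F n)).1.1

section sys

variable (L : Set (ℕ → Ca))

/-- The nodes. -/
abbrev Nd : Type := (L × ℕ) ⊕ (Ca × ℕ)

/-- The points. -/
abbrev Pt : Type := L ⊕ Ca

/-- The children. -/
def Ch : Nd L → Nd L → Prop
  | .inl (x, n), .inl (y, m) => y = x ∧ m = n + 1
  | .inl (x, n), .inr (i, m) => i = x.1 n ∧ m = n + 1
  | .inr (i, n), .inr (j, m) => j = i ∧ m = n + 1
  | .inr _, .inl _ => False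

/-- The grade. -/
def gr : Nd L → ℕ
  | .inl (_, n) => n
  | .inr (_, n) => n

/-- Membership. -/
def Mm : Pt L → Nd L → Prop
  | .inl x, .inl (y, _) => x = y
  | .inl _, .inr _ => False
  | .inr i, .inl (y, n) => ∃ k, n ≤ k ∧ y.1 k = i
  | .inr i, .inr (j, _) => i = j

variable {L}

theorem reach_inr {i : Ca} {n : ℕ} {κ : Nd L} (h : ReflTransGen (Ch L) (.inr (i, n)) κ) :
    ∃ m, n ≤ m ∧ κ = .inr (i, m) := by
  induction h with
  | refl => exact ⟨n, le_rfl, rfl⟩
  | tail _ h2 ih =>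
    rename_i b c _
    obtain ⟨m, h3, rfl⟩ := ih
    rcases c with ⟨y, k⟩ | ⟨j, k⟩
    · exact absurd h2 (fun h => h)
    · obtain ⟨h4, h5⟩ := h2
      exact ⟨k, by omega, by rw [h4]⟩

theorem reach_inl {x : L} {n : ℕ} {κ : Nd L} (h : ReflTransGen (Ch L) (.inl (x, n)) κ) :
    (∃ m, n ≤ m ∧ κ = .inl (x, m)) ∨ ∃ k m, n ≤ k ∧ k < m ∧ κ = .inr (x.1 k, m) := by
  induction h with
  | refl => exact Or.inl ⟨n, le_rfl, rfl⟩
  | tail _ h2 ih =>
    rename_i b c _
    rcases ih with ⟨m, h3, rfl⟩ | ⟨k, m, h3, h4, rfl⟩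
    · rcases c with ⟨y, k⟩ | ⟨j, k⟩
      · obtain ⟨h4, h5⟩ := h2
        exact Or.inl ⟨k, by omega, by rw [h4]⟩
      · obtain ⟨h4, h5⟩ := h2
        exact Or.inr ⟨m, k, h3, by omega, by rw [h4]⟩
    · rcases c with ⟨y, k'⟩ | ⟨j, k'⟩
      · exact absurd h2 (fun h => h)
      · obtain ⟨h5, h6⟩ := h2
        exact Or.inr ⟨k, k', h3, by omega, by rw [h5]⟩

theorem inl_inl (x : L) (n d : ℕ) : ReflTransGen (Ch L) (.inl (x, n)) (.inl (x, n + d)) := by
  induction d with
  | zero => exact ReflTransGen.refl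
  | succ d ih => exact ih.tail ⟨rfl, rfl⟩

theorem inr_inr (i : Ca) (n d : ℕ) : ReflTransGen (Ch L) (.inr (i, n)) (.inr (i, n + d)) := by
  induction d with
  | zero => exact ReflTransGen.refl
  | succ d ih => exact ih.tail ⟨rfl, rfl⟩

theorem inl_le (x : L) {n m : ℕ} (h : n ≤ m) : ReflTransGen (Ch L) (.inl (x, n)) (.inl (x, m)) := by
  obtain ⟨d, rfl⟩ := Nat.exists_eq_add_of_le h
  exact inl_inl x n d

theorem inr_le (i : Ca) {n m : ℕ} (h : n ≤ m) : ReflTransGen (Ch L) (.inr (i, n)) (.inr (i, m)) := by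
  obtain ⟨d, rfl⟩ := Nat.exists_eq_add_of_le h
  exact inr_inr i n d

theorem inl_inr (x : L) {n k m : ℕ} (h : n ≤ k) (h' : k < m) :
    ReflTransGen (Ch L) (.inl (x, n)) (.inr (x.1 k, m)) := by
  have h1 : ReflTransGen (Ch L) (.inl (x, n)) (.inr (x.1 k, k + 1)) :=
    (inl_le x h).tail ⟨rfl, rfl⟩
  exact h1.trans (inr_le _ h')

theorem mm_up {p : Pt L} {ν ν' : Nd L} (h : Ch L ν ν') (hp : Mm L p ν') : Mm L p ν := by
  rcases ν with ⟨x, n⟩ | ⟨i, n⟩ <;> rcases ν' with ⟨y, m⟩ | ⟨j, m⟩ <;> rcases p with z | l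
  · obtain ⟨rfl, _⟩ := h
    exact hp
  · obtain ⟨rfl, rfl⟩ := h
    obtain ⟨k, h1, h2⟩ := hp
    exact ⟨k, by omega, h2⟩
  · exact absurd hp (fun h => h)
  · obtain ⟨rfl, rfl⟩ := h
    have h1 : l = x.1 n := hp
    exact ⟨n, le_rfl, h1.symm⟩
  · exact absurd h (fun h => h)
  · exact absurd h (fun h => h)
  · exact absurd hp (fun h => h)
  · obtain ⟨rfl, _⟩ := h
    exact hp

theorem mm_up' {p : Pt L} {ν ν' : Nd L} (h : ReflTransGen (Ch L) ν ν') (hp : Mm L p ν') :
    Mm L p ν := by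
  induction h with
  | refl => exact hp
  | tail _ h2 ih => exact ih (mm_up h2 hp)

/-- The agreement of two points of the Cantor set is bounded. -/
theorem bdd_rapid {x : ℕ → Ca} (hx : Rapid x) {i j a : ℕ} (h : x i a ≠ x j a) {n : ℕ} (hi : n ≤ i)
    (hj : n ≤ j) : n ≤ a := by
  by_contra hcon
  push Not at hcon
  exact h (hx.2 i j a (by omega) (by omega))

/-- The system. -/
def sysL (hL : IsMad L) : Sys where
  N := Nd L
  X := Pt L
  C := Ch L
  g := gr L
  mem := Mm L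
  C_fin := by
    intro ν
    rcases ν with ⟨x, n⟩ | ⟨i, n⟩
    · refine (Set.toFinite {(.inl (x, n + 1) : Nd L), .inr (x.1 n, n + 1)}).subset ?_
      rintro (⟨y, m⟩ | ⟨j, m⟩) h
      · obtain ⟨rfl, rfl⟩ := h
        exact Or.inl rfl
      · obtain ⟨rfl, rfl⟩ := h
        exact Or.inr rfl
    · refine (Set.toFinite {(.inr (i, n + 1) : Nd L)}).subset ?_
      rintro (⟨y, m⟩ | ⟨j, m⟩) h
      · exact absurd h (fun h => h)
      · obtain ⟨rfl, rfl⟩ := h
        rfl
  C_g := by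
    intro ν ν' h
    rcases ν with ⟨x, n⟩ | ⟨i, n⟩ <;> rcases ν' with ⟨y, m⟩ | ⟨j, m⟩
    · obtain ⟨_, h⟩ := h
      show n < m
      omega
    · obtain ⟨_, h⟩ := h
      show n < m
      omega
    · exact absurd h (fun h => h)
    · obtain ⟨_, h⟩ := h
      show n < m
      omega
  mem_up := fun p ν ν' h hp => mm_up h hp
  mem_down := by
    intro p ν hp
    rcases ν with ⟨x, n⟩ | ⟨i, n⟩ <;> rcases p with z | l
    · exact ⟨.inl (x, n + 1), ⟨rfl, rfl⟩, hp⟩
    · obtain ⟨k, h1, h2⟩ := hp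
      rcases h1.eq_or_lt with h | h
      · refine ⟨.inr (x.1 n, n + 1), ⟨rfl, rfl⟩, ?_⟩
        show l = x.1 n
        rw [h, h2]
      · exact ⟨.inl (x, n + 1), ⟨rfl, rfl⟩, k, h, h2⟩
    · exact absurd hp (fun h => h)
    · exact ⟨.inr (i, n + 1), ⟨rfl, rfl⟩, hp⟩
  mem_ex := by
    intro p
    rcases p with z | l
    · exact ⟨.inl (z, 0), rfl⟩
    · exact ⟨.inr (l, 0), rfl⟩
  disj := by
    intro ν a b ha hb hne κ h1 h2
    rcases ν with ⟨x, n⟩ | ⟨i, n⟩
    · have key : ∀ κ : Nd L, ReflTransGen (Ch L) (.inl (x, n + 1)) κ →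
          ReflTransGen (Ch L) (.inr (x.1 n, n + 1)) κ → False := by
        intro κ h1 h2
        obtain ⟨m, h3, rfl⟩ := reach_inr h2
        rcases reach_inl h1 with ⟨m', h4, h5⟩ | ⟨k, m', h4, h5, h6⟩
        · cases h5
        · have h7 : x.1 n = x.1 k := congrArg Prod.fst (Sum.inr.inj h6)
          have h8 := (hL.1 x.1 x.2).1 h7
          omega
      rcases a with ⟨y, m⟩ | ⟨j, m⟩ <;> rcases b with ⟨y', m'⟩ | ⟨j', m'⟩
      · obtain ⟨rfl, rfl⟩ := ha
        obtain ⟨rfl, rfl⟩ := hb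
        exact hne rfl
      · obtain ⟨rfl, rfl⟩ := ha
        obtain ⟨rfl, rfl⟩ := hb
        exact key κ h1 h2
      · obtain ⟨rfl, rfl⟩ := ha
        obtain ⟨rfl, rfl⟩ := hb
        exact key κ h2 h1
      · obtain ⟨rfl, rfl⟩ := ha
        obtain ⟨rfl, rfl⟩ := hb
        exact hne rfl
    · rcases a with ⟨y, m⟩ | ⟨j, m⟩
      · exact ha
      rcases b with ⟨y', m'⟩ | ⟨j', m'⟩
      · exact hb
      obtain ⟨rfl, rfl⟩ := ha
      obtain ⟨rfl, rfl⟩ := hb
      exact hne rfl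
  disjX := by
    intro p ν a b ha hb h1 h2
    rcases ν with ⟨x, n⟩ | ⟨i, n⟩
    · have key : Mm L p (.inl (x, n + 1)) → Mm L p (.inr (x.1 n, n + 1)) → False := by
        intro h1 h2
        rcases p with z | l
        · exact h2
        · obtain ⟨k, h3, h4⟩ := h1
          have h5 : l = x.1 n := h2
          rw [h5] at h4
          have h8 := (hL.1 x.1 x.2).1 h4
          omega
      rcases a with ⟨y, m⟩ | ⟨j, m⟩ <;> rcases b with ⟨y', m'⟩ | ⟨j', m'⟩
      · obtain ⟨rfl, rfl⟩ := ha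
        obtain ⟨rfl, rfl⟩ := hb
        rfl
      · obtain ⟨rfl, rfl⟩ := ha
        obtain ⟨rfl, rfl⟩ := hb
        exact absurd (key h1 h2) (fun h => h)
      · obtain ⟨rfl, rfl⟩ := ha
        obtain ⟨rfl, rfl⟩ := hb
        exact absurd (key h2 h1) (fun h => h)
      · obtain ⟨rfl, rfl⟩ := ha
        obtain ⟨rfl, rfl⟩ := hb
        rfl
    · rcases a with ⟨y, m⟩ | ⟨j, m⟩
      · exact absurd ha (fun h => h)
      rcases b with ⟨y', m'⟩ | ⟨j', m'⟩
      · exact absurd hb (fun h => h)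
      obtain ⟨rfl, rfl⟩ := ha
      obtain ⟨rfl, rfl⟩ := hb
      rfl
  limit := by
    intro f hf
    by_cases h : ∃ n i m, f n = .inr (i, m)
    · obtain ⟨n, i, m, hn⟩ := h
      have h1 : ∀ d, ∃ m', f (n + d) = .inr (i, m') := by
        intro d
        induction d with
        | zero => exact ⟨m, hn⟩
        | succ d ih =>
          obtain ⟨m', hm'⟩ := ih
          have h2 := hf (n + d)
          rw [hm'] at h2
          rw [← add_assoc]
          rcases hc : f (n + d + 1) with ⟨y, k⟩ | ⟨j, k⟩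
          · rw [hc] at h2; exact absurd h2 (fun h => h)
          · rw [hc] at h2
            obtain ⟨h3, h4⟩ := h2
            exact ⟨k, by rw [h3]⟩
      have hreach : ∀ a d, ReflTransGen (Ch L) (f a) (f (a + d)) := by
        intro a d
        induction d with
        | zero => exact ReflTransGen.refl
        | succ d ih => exact ih.tail (hf _)
      refine ⟨.inr i, fun k => ?_⟩
      obtain ⟨m', hm'⟩ := h1 k
      have h2 := hreach k n
      rw [add_comm k n, hm'] at h2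
      exact mm_up' h2 rfl
    · push Not at h
      have h1 : ∀ n, ∃ x m, f n = .inl (x, m) := by
        intro n
        rcases hc : f n with ⟨y, k⟩ | ⟨j, k⟩
        · exact ⟨y, k, rfl⟩
        · exact absurd hc (h n j k)
      choose x m hx using h1
      have h2 : ∀ n, x n = x 0 := by
        intro n
        induction n with
        | zero => rfl
        | succ n ih =>
          have h3 := hf n
          rw [hx n, hx (n + 1)] at h3
          rw [← ih]
          exact h3.1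
      refine ⟨.inl (x 0), fun n => ?_⟩
      rw [hx n]
      exact (h2 n).symm
  merge := by
    intro p ν μ h1 h2
    rcases p with z | l
    · rcases ν with ⟨x, n⟩ | ⟨i, n⟩
      · rcases μ with ⟨y, m⟩ | ⟨j, m⟩
        · have e1 : z = x := h1
          have e2 : z = y := h2
          subst e1 e2
          exact ⟨.inl (z, max n m), inl_le z (le_max_left _ _), inl_le z (le_max_right _ _), rfl⟩
        · exact absurd h2 (fun h => h)
      · exact absurd h1 (fun h => h)
    · have key : ∀ ν : Nd L, Mm L (.inr l) ν → ∃ n, ∀ m, n ≤ m →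
          ReflTransGen (Ch L) ν (.inr (l, m)) := by
        intro ν hν
        rcases ν with ⟨x, n⟩ | ⟨i, n⟩
        · obtain ⟨k, h3, rfl⟩ := hν
          exact ⟨k + 1, fun m hm => inl_inr x h3 hm⟩
        · have e1 : l = i := hν
          subst e1
          exact ⟨n, fun m hm => inr_le l hm⟩
      obtain ⟨n, hn⟩ := key ν h1
      obtain ⟨m, hm⟩ := key μ h2
      exact ⟨.inr (l, max n m), hn _ (le_max_left _ _), hm _ (le_max_right _ _), rfl⟩
  sep := by
    intro p ν μ h1 h2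
    rcases p with z | l
    · rcases ν with ⟨x, n⟩ | ⟨i, n⟩
      · have e1 : z = x := h1
        subst e1
        -- a bound for the indices common with `μ`
        have key : ∃ b, ∀ k, b ≤ k → ¬ Mm L (.inr (z.1 k)) μ := by
          rcases μ with ⟨y, m⟩ | ⟨j, m⟩
          · have hne : z.1 ≠ y.1 := fun h => h2 (Subtype.ext h)
            have hfin := hL.2.1 z.1 z.2 y.1 y.2 hne
            have hfin' : {k | z.1 k ∈ range z.1 ∩ range y.1}.Finite :=
              hfin.preimage ((hL.1 z.1 z.2).1.injOn)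
            obtain ⟨b, hb⟩ := hfin'.bddAbove
            refine ⟨b + 1, fun k hk => ?_⟩
            rintro ⟨l, _, h3⟩
            have h4 := hb (show k ∈ {k | z.1 k ∈ range z.1 ∩ range y.1} from ⟨⟨k, rfl⟩, ⟨l, h3⟩⟩)
            omega
          · by_cases hj : ∃ k, z.1 k = j
            · obtain ⟨k0, hk0⟩ := hj
              refine ⟨k0 + 1, fun k hk h3 => ?_⟩
              have h4 : z.1 k = j := h3
              rw [← hk0] at h4
              have := (hL.1 z.1 z.2).1 h4
              omega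
            · exact ⟨0, fun k _ h3 => hj ⟨k, h3⟩⟩
        obtain ⟨b, hb⟩ := key
        refine ⟨.inl (z, max n b), inl_le z (le_max_left _ _), rfl, ?_⟩
        intro τ h3 h4
        rcases reach_inl h3 with ⟨m', h5, rfl⟩ | ⟨k, m', h5, h6, rfl⟩
        · exact h2 (mm_up' h4 rfl)
        · exact hb k ((le_max_right _ _).trans h5) (mm_up' h4 rfl)
      · exact absurd h1 (fun h => h)
    · have key : ∃ m, ReflTransGen (Ch L) ν (.inr (l, m)) := by
        rcases ν with ⟨x, n⟩ | ⟨i, n⟩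
        · obtain ⟨k, h3, rfl⟩ := h1
          exact ⟨k + 1, inl_inr x h3 (Nat.lt_succ_self _)⟩
        · have e1 : l = i := h1
          subst e1
          exact ⟨n, ReflTransGen.refl⟩
      obtain ⟨m, hm⟩ := key
      refine ⟨.inr (l, m), hm, rfl, ?_⟩
      intro τ h3 h4
      obtain ⟨m', _, rfl⟩ := reach_inr h3
      exact h2 (mm_up' h4 rfl)
  bdd := by
    intro p p' hne
    rcases p with z | l <;> rcases p' with z' | l'
    · refine ⟨0, fun ν h1 h2 => ?_⟩
      rcases ν with ⟨x, n⟩ | ⟨i, n⟩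
      · exact absurd (congrArg Sum.inl (h1.trans h2.symm)) hne
      · exact absurd h1 (fun h => h)
    · by_cases hj : ∃ k, z.1 k = l'
      · obtain ⟨k0, hk0⟩ := hj
        refine ⟨k0, fun ν h1 h2 => ?_⟩
        rcases ν with ⟨x, n⟩ | ⟨i, n⟩
        · have e1 : z = x := h1
          subst e1
          obtain ⟨k, h3, h4⟩ := h2
          rw [← hk0] at h4
          have := (hL.1 z.1 z.2).1 h4
          subst this
          exact h3
        · exact absurd h1 (fun h => h)
      · refine ⟨0, fun ν h1 h2 => ?_⟩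
        rcases ν with ⟨x, n⟩ | ⟨i, n⟩
        · have e1 : z = x := h1
          subst e1
          obtain ⟨k, h3, h4⟩ := h2
          exact absurd ⟨k, h4⟩ hj
        · exact absurd h1 (fun h => h)
    · by_cases hj : ∃ k, z'.1 k = l
      · obtain ⟨k0, hk0⟩ := hj
        refine ⟨k0, fun ν h2 h1 => ?_⟩
        rcases ν with ⟨x, n⟩ | ⟨i, n⟩
        · have e1 : z' = x := h1
          subst e1
          obtain ⟨k, h3, h4⟩ := h2
          rw [← hk0] at h4
          have := (hL.1 z'.1 z'.2).1 h4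
          subst this
          exact h3
        · exact absurd h1 (fun h => h)
      · refine ⟨0, fun ν h2 h1 => ?_⟩
        rcases ν with ⟨x, n⟩ | ⟨i, n⟩
        · have e1 : z' = x := h1
          subst e1
          obtain ⟨k, h3, h4⟩ := h2
          exact absurd ⟨k, h4⟩ hj
        · exact absurd h1 (fun h => h)
    · have hne' : l ≠ l' := fun h => hne (congrArg Sum.inr h)
      obtain ⟨a, ha⟩ := Function.ne_iff.1 hne'
      refine ⟨a, fun ν h1 h2 => ?_⟩
      rcases ν with ⟨x, n⟩ | ⟨i, n⟩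
      · obtain ⟨k, h3, rfl⟩ := h1
        obtain ⟨k', h4, rfl⟩ := h2
        exact bdd_rapid (hL.1 x.1 x.2) ha h3 h4
      · exact absurd (h1.trans h2.symm) hne'

end sys

section qd

variable {S : Sys} {r : S.N → ℝ}

/-- Small balls in the charts of a set of nodes. -/
def Bl (S : Sys) (r : S.N → ℝ) (A : Set S.N) (j : ℕ) : Set (Set (Mf S r)) :=
  {V | ∃ ν ∈ A, ∃ p : ℝ × ℝ, V = chart S r ν '' Metric.ball p (1 / ((j : ℝ) + 1))}

theorem isOpen_Bl {A : Set S.N} {j : ℕ} {V : Set (Mf S r)} (h : V ∈ Bl S r A j) : IsOpen V := by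
  obtain ⟨ν, _, p, rfl⟩ := h
  exact (isOpenEmbedding_chart ν).isOpenMap _ Metric.isOpen_ball

/-- If `m` lies in the chart of exactly one node of `A` then small balls shrink to `m`. -/
theorem Bl_shrink {A : Set S.N} {m : Mf S r} {ν : S.N} (hν : ν ∈ A) (hm : m ∈ D S r ν)
    (hA : ∀ μ ∈ A, m ∈ D S r μ → μ = ν) {U : Set (Mf S r)} (hU : IsOpen U) (hmU : m ∈ U) :
    ∃ j, (∃ V ∈ Bl S r A j, m ∈ V) ∧ ∀ V ∈ Bl S r A j, m ∈ V → V ⊆ U := by
  obtain ⟨q, rfl⟩ := hm
  have h1 : IsOpen (chart S r ν ⁻¹' U) := hU.preimage (isOpenEmbedding_chart ν).continuous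
  obtain ⟨ε, hε, hball⟩ := Metric.isOpen_iff.1 h1 q hmU
  obtain ⟨j, hj⟩ := exists_nat_gt (2 / ε)
  have hj' : 2 / ((j : ℝ) + 1) < ε := by
    rw [div_lt_iff₀ (by positivity)]
    rw [div_lt_iff₀ hε] at hj
    nlinarith
  have hpos : (0 : ℝ) < 1 / ((j : ℝ) + 1) := by positivity
  refine ⟨j, ⟨_, ⟨ν, hν, q, rfl⟩, q, Metric.mem_ball_self hpos, rfl⟩, ?_⟩
  rintro V ⟨μ, hμ, p, rfl⟩ hqV
  have h2 : μ = ν := hA μ hμ (by obtain ⟨s, _, hs⟩ := hqV; exact ⟨s, hs⟩)
  subst h2
  obtain ⟨s, hs, hsq⟩ := hqV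
  have h3 := chart_injective μ hsq
  subst h3
  rintro _ ⟨w, hw, rfl⟩
  apply hball
  rw [Metric.mem_ball] at hs hw ⊢
  have h4 := dist_triangle_right w s p
  have h5 : 2 / ((j : ℝ) + 1) = 1 / ((j : ℝ) + 1) + 1 / ((j : ℝ) + 1) := by ring
  linarith

theorem reach_eq_of_g {a b : S.N} (h : ReflTransGen S.C a b) (hg : S.g b ≤ S.g a) : a = b := by
  rcases h.cases_head with h | ⟨d, h1, h2⟩
  · exact h
  · exfalso
    have h3 := S.C_g _ _ h1
    have h4 := g_le h2
    omega

/-- A quasi-development. -/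
theorem quasi_dev (B : ℕ → Set S.N)
    (hB : ∀ x : S.X, ∃ n, ∃ ν ∈ B n, S.mem x ν ∧ ∀ μ ∈ B n, S.mem x μ → μ = ν) :
    ∃ G : ℕ → Set (Set (Mf S r)),
      (∀ k, ∀ V ∈ G k, IsOpen V) ∧
      ∀ x : Mf S r, ∀ U : Set (Mf S r), IsOpen U → x ∈ U →
        ∃ k, (∃ V ∈ G k, x ∈ V) ∧ ∀ V ∈ G k, x ∈ V → V ⊆ U := by
  classical
  let A : ℕ → Set S.N := fun n => if n % 2 = 0 then {ν | S.g ν = n / 2} else B (n / 2)
  have hA0 : ∀ n, A (2 * n) = {ν | S.g ν = n} := by
    intro n
    have h1 : (2 * n) % 2 = 0 := by omega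
    have h2 : (2 * n) / 2 = n := by omega
    simp only [A]
    rw [if_pos h1, h2]
  have hA1 : ∀ n, A (2 * n + 1) = B n := by
    intro n
    have h1 : ¬ (2 * n + 1) % 2 = 0 := by omega
    have h2 : (2 * n + 1) / 2 = n := by omega
    simp only [A]
    rw [if_neg h1, h2]
  refine ⟨fun k => Bl S r (A k.unpair.1) k.unpair.2, fun k V hV => isOpen_Bl hV, ?_⟩
  intro m U hU hmU
  have key : ∃ n j, (∃ V ∈ Bl S r (A n) j, m ∈ V) ∧ ∀ V ∈ Bl S r (A n) j, m ∈ V → V ⊆ U := by
    rcases term_or_pt m with ⟨a, ha, rfl⟩ | ⟨x, t, rfl⟩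
    · refine ⟨2 * S.g a.1, ?_⟩
      rw [hA0]
      refine Bl_shrink (A := {ν | S.g ν = S.g a.1}) (ν := a.1) rfl mem_D ?_ hU hmU
      intro μ hμ h
      exact reach_eq_of_g (term_D ha h) (le_of_eq hμ.symm)
    · obtain ⟨n, ν, h1, h2, h3⟩ := hB x
      refine ⟨2 * n + 1, ?_⟩
      rw [hA1]
      refine Bl_shrink (ν := ν) h1 (pt_mem_D.2 h2) ?_ hU hmU
      intro μ hμ h
      exact h3 μ hμ (pt_mem_D.1 h)
  obtain ⟨n, j, h⟩ := key
  refine ⟨Nat.pair n j, ?_⟩
  simp only [Nat.unpair_pair]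
  exact h

end qd

section final

variable {L : Set (ℕ → Ca)} (hL : IsMad L)

theorem qd_L (r : (sysL hL).N → ℝ) : ∃ G : ℕ → Set (Set (Mf (sysL hL) r)),
      (∀ k, ∀ V ∈ G k, IsOpen V) ∧
      ∀ x : Mf (sysL hL) r, ∀ U : Set (Mf (sysL hL) r), IsOpen U → x ∈ U →
        ∃ k, (∃ V ∈ G k, x ∈ V) ∧ ∀ V ∈ G k, x ∈ V → V ⊆ U := by
  refine quasi_dev (S := sysL hL) (fun n => if n = 0 then {ν | ∃ x : L, ν = (.inl (x, 0) : Nd L)}
    else {ν | ∃ i : Ca, ν = (.inr (i, 0) : Nd L)}) ?_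
  intro p
  rcases p with z | l
  · refine ⟨0, .inl (z, 0), ?_, rfl, ?_⟩
    · rw [if_pos rfl]; exact ⟨z, rfl⟩
    · intro μ hμ h
      rw [if_pos rfl] at hμ
      obtain ⟨x, rfl⟩ := hμ
      have h1 : z = x := h
      rw [h1]
  · refine ⟨1, .inr (l, 0), ?_, rfl, ?_⟩
    · rw [if_neg one_ne_zero]; exact ⟨l, rfl⟩
    · intro μ hμ h
      rw [if_neg one_ne_zero] at hμ
      obtain ⟨i, rfl⟩ := hμ
      have h1 : l = i := h
      rw [h1]

theorem not_dev (r : (sysL hL).N → ℝ) : ¬ (∃ G : ℕ → Set (Set (Mf (sysL hL) r)),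
        (∀ k, ∀ V ∈ G k, IsOpen V) ∧
        (∀ k, ⋃₀ G k = Set.univ) ∧
        ∀ x : Mf (sysL hL) r, ∀ U : Set (Mf (sysL hL) r), IsOpen U → x ∈ U →
          ∃ k, ∀ V ∈ G k, x ∈ V → V ⊆ U) := by
  rintro ⟨G, hGo, hGc, hG⟩
  have h1 : ∀ i : Ca, ∃ k, ∀ V ∈ G k, pt (S := sysL hL) r (.inr i) 0 ∈ V →
      V ⊆ D (sysL hL) r (.inr (i, 0)) := by
    intro i
    exact hG _ _ (isOpen_D _) (pt_mem_D.2 (show Mm L (.inr i) (.inr (i, 0)) from rfl))
  choose h hh using h1
  -- some fibre is infinite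
  have h2 : ∃ k, {i : Ca | h i = k}.Infinite := by
    by_contra hcon
    push Not at hcon
    have h3 : (Set.univ : Set Ca).Countable := by
      have h4 : (Set.univ : Set Ca) = ⋃ k, {i : Ca | h i = k} := by
        ext i; simp
      rw [h4]
      exact Set.countable_iUnion (fun k => (hcon k).countable)
    have h5 : Countable Ca := Set.countable_univ_iff.1 h3
    obtain ⟨f, hf⟩ := exists_surjective_nat Ca
    obtain ⟨n, hn⟩ := hf (fun n => !(f n n))
    have h6 := congrFun hn n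
    simp at h6
  obtain ⟨k, hk⟩ := h2
  obtain ⟨s, hs, hsJ⟩ := exists_rapid hk
  obtain ⟨t, htL, ht⟩ := hL.2.2 s hs
  obtain ⟨V, hV, hptV⟩ : pt (S := sysL hL) r (.inl ⟨t, htL⟩) 0 ∈ ⋃₀ G k := by
    rw [hGc k]; exact mem_univ _
  obtain ⟨κ, hκ1, hκ2, hκ3⟩ := pt_nhds (S := sysL hL) (hGo k V hV) hptV
    (ν := (.inl (⟨t, htL⟩, 0) : Nd L)) rfl
  rcases reach_inl hκ1 with ⟨n, _, rfl⟩ | ⟨k', m', _, _, rfl⟩
  · have h7 : {j | t j ∈ range s}.Infinite := by
      intro hfin
      apply ht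
      refine (hfin.image t).subset ?_
      rintro _ ⟨h8, ⟨j, rfl⟩⟩
      exact ⟨j, h8, rfl⟩
    obtain ⟨j, hj, hnj⟩ := h7.exists_gt n
    have h8 : t j ∈ {i : Ca | h i = k} := hsJ hj
    have h9 : pt (S := sysL hL) r (.inr (t j)) 0 ∈ V := hκ3 (.inr (t j)) ⟨j, hnj.le, rfl⟩
    have h10 := hh (t j) V (by rw [show h (t j) = k from h8]; exact hV) h9
    exact pt_mem_D.1 (h10 hptV)
  · exact hκ2

theorem exists_r : ∃ r : (sysL hL).N → ℝ, Function.Injective r := by
  have h1 : Cardinal.mk (Nd L) ≤ Cardinal.mk ℝ := by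
    have hc : Cardinal.mk Ca = Cardinal.continuum := by
      simp [Ca]
    have hL' : Cardinal.mk L ≤ Cardinal.continuum := by
      refine (Cardinal.mk_set_le L).trans ?_
      rw [← Cardinal.power_def, hc, Cardinal.mk_nat, Cardinal.continuum_power_aleph0]
    rw [Cardinal.mk_real, Cardinal.mk_sum, Cardinal.mk_prod, Cardinal.mk_prod]
    simp only [Cardinal.lift_id, Cardinal.mk_nat, hc]
    refine Cardinal.add_le_of_le Cardinal.aleph0_le_continuum ?_ ?_
    · exact Cardinal.mul_le_of_le Cardinal.aleph0_le_continuum hL' Cardinal.aleph0_le_continuum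
    · exact Cardinal.mul_le_of_le Cardinal.aleph0_le_continuum le_rfl
        Cardinal.aleph0_le_continuum
  rw [Cardinal.le_def] at h1
  obtain ⟨r⟩ := h1
  exact ⟨r, r.injective⟩

/-- The chart structure. -/
noncomputable def charted (S : Sys) (r : S.N → ℝ) :
    ChartedSpace (EuclideanSpace ℝ (Fin 2)) (Mf S r) := by
  classical
  have e : (ℝ × ℝ) ≃ₜ EuclideanSpace ℝ (Fin 2) :=
    (Homeomorph.finTwoArrow (X := ℝ)).symm.trans
      (EuclideanSpace.equiv (Fin 2) ℝ).toHomeomorph.symm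
  have hemb : ∀ ν, IsOpenEmbedding (fun p => chart S r ν (e.symm p)) := fun ν =>
    (isOpenEmbedding_chart ν).comp e.symm.isOpenEmbedding
  have hex : ∀ m : Mf S r, ∃ ν, m ∈ D S r ν := by
    intro m
    obtain ⟨a, rfl⟩ := mk_surj m
    exact ⟨a.1, mem_D⟩
  exact
    { atlas := Set.range (fun ν => ((hemb ν).toOpenPartialHomeomorph _).symm)
      chartAt := fun m => ((hemb (hex m).choose).toOpenPartialHomeomorph _).symm
      mem_chart_source := by
        intro m
        obtain ⟨p, hp⟩ := (hex m).choose_spec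
        simp only [OpenPartialHomeomorph.symm_source, IsOpenEmbedding.toOpenPartialHomeomorph_target]
        exact ⟨e p, by simp [hp]⟩
      chart_mem_atlas := fun m => ⟨_, rfl⟩ }

end final

end Pool.Agent.H571R2.QDMan
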